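import Mathlib

set_option autoImplicit false

namespace Pool.Agent.Results.MP_16faa7_an.ThresholdConvex

/-- The set `S_α` of admissible exponents. -/
def S (γ α : ℝ) : Set ℝ :=
  {β | 0 < β ∧ ∀ z : ℝ, 0 < z → z < 1 → γ * z ^ (β - α) * (1 - z ^ α) ≤ 1 - z}

/-- The threshold exponent `β(α) = inf S_α`. -/
noncomputable def beta (γ α : ℝ) : ℝ := sInf (S γ α)

/-- `1` is an admissible exponent. -/
lemma one_mem {γ α : ℝ} (hγ : 1 < γ) (hα : 0 < α) (hα1 : α < 1 / γ) : (1 : ℝ) ∈ S γ α := by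
  have hγ0 : 0 < γ := by linarith
  have hαγ : α * γ < 1 := by rwa [lt_div_iff₀ hγ0] at hα1
  have hα2 : α ≤ 1 := by nlinarith
  refine ⟨one_pos, fun z hz hz1 => ?_⟩
  have hw : 1 < z⁻¹ := (one_lt_inv₀ hz).mpr hz1
  have hB : (1 + (z⁻¹ - 1)) ^ α ≤ 1 + α * (z⁻¹ - 1) :=
    _root_.rpow_one_add_le_one_add_mul_self (by linarith) hα.le hα2
  have e1 : (1 + (z⁻¹ - 1)) = z⁻¹ := by ring
  rw [e1, Real.inv_rpow hz.le] at hB
  have hzα : 0 < z ^ α := Real.rpow_pos_of_pos hz α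
  have e2 : z ^ (1 - α) = z * (z ^ α)⁻¹ := by
    rw [Real.rpow_sub hz, Real.rpow_one, div_eq_mul_inv]
  rw [e2]
  have e3 : γ * (z * (z ^ α)⁻¹) * (1 - z ^ α) = γ * z * ((z ^ α)⁻¹ - 1) := by
    field_simp
  rw [e3]
  have h1 : γ * z * ((z ^ α)⁻¹ - 1) ≤ γ * z * (α * (z⁻¹ - 1)) :=
    mul_le_mul_of_nonneg_left (by linarith) (by positivity)
  have e4 : γ * z * (α * (z⁻¹ - 1)) = (α * γ) * (1 - z) := by field_simp
  rw [e4] at h1
  nlinarith

/-- the epigraph is convex -/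
lemma epi {γ a₁ a₂ b₁ b₂ s t : ℝ} (hγ : 1 < γ) (ha₁ : 0 < a₁) (ha₂ : 0 < a₂)
    (hs : 0 < s) (ht : 0 < t) (hst : s + t = 1) (h₁ : b₁ ∈ S γ a₁) (h₂ : b₂ ∈ S γ a₂) :
    s * b₁ + t * b₂ ∈ S γ (s * a₁ + t * a₂) := by
  obtain ⟨hb₁, h₁⟩ := h₁
  obtain ⟨hb₂, h₂⟩ := h₂
  refine ⟨by positivity, fun z hz hz1 => ?_⟩
  set a := s * a₁ + t * a₂ with ha
  have hapos : 0 < a := by positivity
  set l := s * a₁ / a with hl
  set m := t * a₂ / a with hm
  have hl0 : 0 < l := by positivity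
  have hm0 : 0 < m := by positivity
  have hlm : l + m = 1 := by rw [hl, hm]; field_simp; rw [ha]
  set x := z ^ (a / a₁) with hx
  set y := z ^ (a / a₂) with hy
  have hx0 : 0 < x := Real.rpow_pos_of_pos hz _
  have hy0 : 0 < y := Real.rpow_pos_of_pos hz _
  have hx1 : x < 1 := Real.rpow_lt_one hz.le hz1 (by positivity)
  have hy1 : y < 1 := Real.rpow_lt_one hz.le hz1 (by positivity)
  have g₁ := h₁ x hx0 hx1
  have g₂ := h₂ y hy0 hy1
  have ex : x ^ a₁ = z ^ a := by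
    rw [hx, ← Real.rpow_mul hz.le]; congr 1; field_simp
  have ey : y ^ a₂ = z ^ a := by
    rw [hy, ← Real.rpow_mul hz.le]; congr 1; field_simp
  rw [ex] at g₁
  rw [ey] at g₂
  have hza : z ^ a < 1 := Real.rpow_lt_one hz.le hz1 hapos
  have hza0 : 0 < 1 - z ^ a := by linarith
  have hγ0 : 0 < γ := by linarith
  set c := γ * (1 - z ^ a) with hc
  have hc0 : 0 < c := by positivity
  have g₁' : x ^ (b₁ - a₁) * c ≤ 1 - x := by
    calc x ^ (b₁ - a₁) * c = γ * x ^ (b₁ - a₁) * (1 - z ^ a) := by rw [hc]; ring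
      _ ≤ _ := g₁
  have g₂' : y ^ (b₂ - a₂) * c ≤ 1 - y := by
    calc y ^ (b₂ - a₂) * c = γ * y ^ (b₂ - a₂) * (1 - z ^ a) := by rw [hc]; ring
      _ ≤ _ := g₂
  have hxp : 0 < x ^ (b₁ - a₁) := Real.rpow_pos_of_pos hx0 _
  have hyp : 0 < y ^ (b₂ - a₂) := Real.rpow_pos_of_pos hy0 _
  -- raise to the powers and multiply
  have k₁ : (x ^ (b₁ - a₁) * c) ^ l ≤ (1 - x) ^ l :=
    Real.rpow_le_rpow (by positivity) g₁' hl0.le
  have k₂ : (y ^ (b₂ - a₂) * c) ^ m ≤ (1 - y) ^ m :=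
    Real.rpow_le_rpow (by positivity) g₂' hm0.le
  have k := mul_le_mul k₁ k₂ (by positivity) (by
    exact Real.rpow_nonneg (by linarith) _)
  have A1 := Real.geom_mean_le_arith_mean2_weighted hl0.le hm0.le (by linarith : (0:ℝ) ≤ 1 - x)
    (by linarith : (0:ℝ) ≤ 1 - y) hlm
  have A2 := Real.geom_mean_le_arith_mean2_weighted hl0.le hm0.le hx0.le hy0.le hlm
  have exy : x ^ l * y ^ m = z := by
    rw [hx, hy, ← Real.rpow_mul hz.le, ← Real.rpow_mul hz.le, ← Real.rpow_add hz]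
    have : a / a₁ * l + a / a₂ * m = 1 := by
      rw [hl, hm]; field_simp; linarith
    rw [this, Real.rpow_one]
  rw [exy] at A2
  have hL : (x ^ (b₁ - a₁) * c) ^ l * (y ^ (b₂ - a₂) * c) ^ m
      = γ * z ^ (s * b₁ + t * b₂ - a) * (1 - z ^ a) := by
    rw [Real.mul_rpow hxp.le hc0.le, Real.mul_rpow hyp.le hc0.le]
    have e1 : (x ^ (b₁ - a₁)) ^ l = z ^ (a / a₁ * (b₁ - a₁) * l) := by
      rw [hx, ← Real.rpow_mul hz.le, ← Real.rpow_mul hz.le]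
    have e2 : (y ^ (b₂ - a₂)) ^ m = z ^ (a / a₂ * (b₂ - a₂) * m) := by
      rw [hy, ← Real.rpow_mul hz.le, ← Real.rpow_mul hz.le]
    rw [e1, e2]
    have e3 : c ^ l * c ^ m = c := by
      rw [← Real.rpow_add hc0, hlm, Real.rpow_one]
    have e4 : z ^ (a / a₁ * (b₁ - a₁) * l) * z ^ (a / a₂ * (b₂ - a₂) * m)
        = z ^ (s * b₁ + t * b₂ - a) := by
      rw [← Real.rpow_add hz]
      congr 1
      rw [hl, hm]
      field_simp
      rw [ha]
      ring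
    calc z ^ (a / a₁ * (b₁ - a₁) * l) * c ^ l * (z ^ (a / a₂ * (b₂ - a₂) * m) * c ^ m)
        = (z ^ (a / a₁ * (b₁ - a₁) * l) * z ^ (a / a₂ * (b₂ - a₂) * m)) * (c ^ l * c ^ m) := by
          ring
      _ = z ^ (s * b₁ + t * b₂ - a) * c := by rw [e3, e4]
      _ = _ := by rw [hc]; ring
  rw [hL] at k
  have hsum : l * (1 - x) + m * (1 - y) = 1 - (l * x + m * y) := by
    linear_combination hlm
  linarith

/-- MP_16faa7_an, Q1: the threshold exponent is a convex function of `α`. -/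
theorem result (γ : ℝ) (hγ : 1 < γ) :
    (∀ α ∈ Set.Ioo (0 : ℝ) (1 / γ), (S γ α).Nonempty ∧ BddBelow (S γ α)) ∧
    ConvexOn ℝ (Set.Ioo (0 : ℝ) (1 / γ)) (beta γ) := by
  have hne : ∀ α ∈ Set.Ioo (0 : ℝ) (1 / γ), (S γ α).Nonempty ∧ BddBelow (S γ α) := by
    intro α hα
    exact ⟨⟨1, one_mem hγ hα.1 hα.2⟩, ⟨0, fun β hβ => hβ.1.le⟩⟩
  refine ⟨hne, convex_Ioo _ _, ?_⟩
  intro a₁ ha₁ a₂ ha₂ s t hs ht hst
  simp only [smul_eq_mul]
  rcases hs.eq_or_lt with rfl | hs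
  · have : t = 1 := by linarith
    simp [this]
  rcases ht.eq_or_lt with rfl | ht
  · have : s = 1 := by linarith
    simp [this]
  by_contra hcon
  push Not at hcon
  set δ := beta γ (s * a₁ + t * a₂) - (s * beta γ a₁ + t * beta γ a₂) with hδ
  have hδ0 : 0 < δ := by linarith
  obtain ⟨b₁, hb₁, hb₁'⟩ := exists_lt_of_csInf_lt (hne a₁ ha₁).1
    (show sInf (S γ a₁) < beta γ a₁ + δ by unfold beta; linarith)
  obtain ⟨b₂, hb₂, hb₂'⟩ := exists_lt_of_csInf_lt (hne a₂ ha₂).1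
    (show sInf (S γ a₂) < beta γ a₂ + δ by unfold beta; linarith)
  have hmem := epi hγ ha₁.1 ha₂.1 hs ht hst hb₁ hb₂
  have hle : beta γ (s * a₁ + t * a₂) ≤ s * b₁ + t * b₂ :=
    csInf_le ⟨0, fun β hβ => hβ.1.le⟩ hmem
  have h1 : s * b₁ < s * (beta γ a₁ + δ) := mul_lt_mul_of_pos_left hb₁' hs
  have h2 : t * b₂ < t * (beta γ a₂ + δ) := mul_lt_mul_of_pos_left hb₂' ht
  have h3 : s * (beta γ a₁ + δ) + t * (beta γ a₂ + δ)
      = s * beta γ a₁ + t * beta γ a₂ + δ := by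
    linear_combination δ * hst
  linarith

end Pool.Agent.Results.MP_16faa7_an.ThresholdConvex
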